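import Pool.Agent.Helper38.ND.Goals
import Pool.Agent.Helper44.PP.DABS

/-!
# Project ND (MP_fc6b1e_nt): packet N_ABS

From finitely many families to one, natural density version.
-/

set_option autoImplicit false

namespace Pool.Agent.Helper50.ND

open Pool.Agent.Helper11.PP (Slow)
open Pool.Agent.Helper44.PP.Dabs (slow_one slow_pow)

/-- The number of elements of a finite disjoint union. -/
theorem ncard_sig {T : Type} [Fintype T] {β : T → Type} (E : ∀ τ, Set (β τ))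
    (hE : ∀ τ, (E τ).Finite) :
    {s : Σ τ, β τ | s.2 ∈ E s.1}.Finite ∧
      {s : Σ τ, β τ | s.2 ∈ E s.1}.ncard = ∑ τ, (E τ).ncard := by
  classical
  have h : {s : Σ τ, β τ | s.2 ∈ E s.1} =
      ((Finset.univ.sigma fun τ => (hE τ).toFinset : Finset (Σ τ, β τ)) : Set (Σ τ, β τ)) := by
    ext s
    simp
  rw [h]
  refine ⟨Finset.finite_toSet _, ?_⟩
  rw [Set.ncard_coe_finset, Finset.card_sigma]
  refine Finset.sum_congr rfl fun τ _ => ?_
  rw [Set.ncard_eq_toFinset_card _ (hE τ)]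

theorem n_abs : Pool.Agent.Helper38.ND.N_ABS := by
  classical
  intro T _ _ β n bad F g K c X₁ θ hF hc hθ hg hup hlow hbad ι f Bd Φ hΦ hcf hf hBd
  have hK := slow_one hg
  have hK0 : 0 < K := by linarith
  have hgpos : ∀ X, 0 < g X := fun X ↦ lt_of_lt_of_le one_pos (hg.one X)
  set h : ℕ := (Set.range Φ)ᶜ.ncard with hhdef
  have hFone : ∀ τ, (1 : ℝ) ≤ F τ := fun τ ↦ by exact_mod_cast hF τ
  have hFpos : ∀ τ, (0 : ℝ) < F τ := fun τ ↦ by linarith [hFone τ]
  have hfin : ∀ τ, ∀ X : ℝ, {b : β τ | (n τ b : ℝ) ≤ X}.Finite := by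
    intro τ X
    refine (hup τ (max X 1) (by positivity)).1.subset ?_
    intro b hb
    exact le_trans (show (n τ b : ℝ) ≤ X from hb) (le_max_left _ _)
  -- the disjoint union
  have hsig := fun X : ℝ => ncard_sig (fun τ => {b : β τ | (n τ b : ℝ) ≤ X / F τ})
    (fun τ => hfin τ (X / F τ))
  have hiff : ∀ (X : ℝ) (i : ι), (f i : ℝ) ≤ X ↔
      Φ i ∈ {s : Σ τ, β τ | s.2 ∈ {b : β s.1 | (n s.1 b : ℝ) ≤ X / F s.1}} := by
    intro X i
    show (f i : ℝ) ≤ X ↔ (n (Φ i).1 (Φ i).2 : ℝ) ≤ X / F (Φ i).1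
    rw [hf i, le_div_iff₀ (hFpos _)]
    push_cast
    rw [mul_comm]
  have himg : ∀ X : ℝ, Φ '' {i | (f i : ℝ) ≤ X} ⊆
      {s : Σ τ, β τ | s.2 ∈ {b : β s.1 | (n s.1 b : ℝ) ≤ X / F s.1}} := by
    rintro X _ ⟨i, hi, rfl⟩
    exact (hiff X i).1 hi
  have hfinf : ∀ X : ℝ, {i | (f i : ℝ) ≤ X}.Finite := fun X =>
    Set.Finite.of_finite_image ((hsig X).1.subset (himg X)) hΦ.injOn
  have hAle : ∀ X : ℝ, ({i | (f i : ℝ) ≤ X}.ncard : ℝ) ≤
      ∑ τ, ({b : β τ | (n τ b : ℝ) ≤ X / F τ}.ncard : ℝ) := by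
    intro X
    have h1 := Set.ncard_le_ncard (himg X) (hsig X).1
    rw [Set.ncard_image_of_injective _ hΦ, (hsig X).2] at h1
    exact_mod_cast h1
  have hleA : ∀ X : ℝ, ∑ τ, ({b : β τ | (n τ b : ℝ) ≤ X / F τ}.ncard : ℝ) ≤
      ({i | (f i : ℝ) ≤ X}.ncard : ℝ) + h := by
    intro X
    have hsub : {s : Σ τ, β τ | s.2 ∈ {b : β s.1 | (n s.1 b : ℝ) ≤ X / F s.1}} ⊆
        Φ '' {i | (f i : ℝ) ≤ X} ∪ (Set.range Φ)ᶜ := by
      intro s hs
      by_cases hr : s ∈ Set.range Φ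
      · left
        obtain ⟨i, rfl⟩ := hr
        exact ⟨i, (hiff X i).2 hs, rfl⟩
      · right
        exact hr
    have h1 := Set.ncard_le_ncard hsub (((hfinf X).image _).union hcf)
    have h2 := h1.trans (Set.ncard_union_le _ _)
    rw [Set.ncard_image_of_injective _ hΦ, (hsig X).2] at h2
    exact_mod_cast h2
  -- upper bound
  have hup' : ∀ X : ℝ, 1 ≤ X → ∀ τ,
      ({b : β τ | (n τ b : ℝ) ≤ 2 * X / F τ}.ncard : ℝ) ≤ K * (2 * X * (K * g X)) := by
    intro X hX τ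
    have h2X : (0 : ℝ) < 2 * X := by linarith
    have h1 : {b : β τ | (n τ b : ℝ) ≤ 2 * X / F τ} ⊆ {b : β τ | (n τ b : ℝ) ≤ 2 * X} := by
      intro b hb
      exact le_trans (show (n τ b : ℝ) ≤ 2 * X / F τ from hb) (div_le_self h2X.le (hFone τ))
    have h2 : ({b : β τ | (n τ b : ℝ) ≤ 2 * X / F τ}.ncard : ℝ) ≤
        ({b : β τ | (n τ b : ℝ) ≤ 2 * X}.ncard : ℝ) := by
      exact_mod_cast Set.ncard_le_ncard h1 (hfin τ _)
    refine h2.trans ((hup τ _ h2X).2.trans ?_)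
    have h3 := hg.dbl X hX
    gcongr
  -- lower bound
  obtain ⟨τ₀⟩ := (inferInstance : Nonempty T)
  obtain ⟨l, hl⟩ : ∃ l : ℕ, (F τ₀ : ℝ) ≤ 2 ^ l := by
    obtain ⟨l, hl⟩ := pow_unbounded_of_one_lt (F τ₀ : ℝ) (show (1 : ℝ) < 2 by norm_num)
    exact ⟨l, hl.le⟩
  have hKl : (0 : ℝ) < K ^ (l + 1) := by positivity
  have hF0 := hFpos τ₀
  set c' : ℝ := c / (2 * (F τ₀ * K ^ (l + 1))) with hc'
  have hc'pos : 0 < c' := by positivity
  set X₂ : ℝ := max (max (F τ₀ * max X₁ 1) ((h : ℝ) / c')) 1 with hX₂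
  have hLOW : ∀ X : ℝ, X₂ ≤ X → c' * (X * g X) ≤ ({i | (f i : ℝ) ≤ X}.ncard : ℝ) := by
    intro X hX
    have hX1 : 1 ≤ X := le_trans (le_max_right _ _) hX
    have hX0 : 0 < X := by linarith
    have hXl : F τ₀ * max X₁ 1 ≤ X :=
      le_trans (le_trans (le_max_left _ _) (le_max_left _ _)) hX
    have hXh : (h : ℝ) / c' ≤ X :=
      le_trans (le_trans (le_max_right _ _) (le_max_left _ _)) hX
    set Y : ℝ := X / F τ₀ with hY
    have hXY : X = F τ₀ * Y := by rw [hY]; field_simp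
    have hYm : max X₁ 1 ≤ Y := by
      rw [hY, le_div_iff₀ hF0]; linarith
    have hY1 : 1 ≤ Y := le_trans (le_max_right _ _) hYm
    have hYX : X₁ ≤ Y := le_trans (le_max_left _ _) hYm
    have hYpos : 0 < Y := by linarith
    have h1 := hlow τ₀ Y hYpos hYX
    have h2 : g X ≤ K ^ (l + 1) * g Y := by
      have h3 : X ≤ 2 ^ l * Y := by rw [hXY]; gcongr
      calc g X ≤ K * g (2 ^ l * Y) := hg.mono _ _ h3
        _ ≤ K * (K ^ l * g Y) := by
            have := slow_pow hg l Y hY1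
            gcongr
        _ = K ^ (l + 1) * g Y := by ring
    have h3 : ({b : β τ₀ | (n τ₀ b : ℝ) ≤ Y}.ncard : ℝ) ≤
        ∑ τ, ({b : β τ | (n τ b : ℝ) ≤ X / F τ}.ncard : ℝ) :=
      Finset.single_le_sum (f := fun τ => ({b : β τ | (n τ b : ℝ) ≤ X / F τ}.ncard : ℝ))
        (fun _ _ => Nat.cast_nonneg _) (Finset.mem_univ τ₀)
    have h4 := hleA X
    have h5 : 2 * c' * (X * g X) ≤ c * (Y * g Y) := by
      calc 2 * c' * (X * g X) ≤ 2 * c' * (X * (K ^ (l + 1) * g Y)) := by gcongr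
        _ = c * (Y * g Y) := by
            rw [hXY, hc']
            field_simp
    have h7 : (h : ℝ) ≤ c' * (X * g X) := by
      have h8 : (h : ℝ) ≤ c' * X := by
        rw [div_le_iff₀ hc'pos] at hXh
        linarith
      have h9 : X ≤ X * g X := by
        have := hg.one X
        nlinarith
      calc (h : ℝ) ≤ c' * X := h8
        _ ≤ c' * (X * g X) := mul_le_mul_of_nonneg_left h9 hc'pos.le
    linarith
  have hX2pos : 1 ≤ X₂ := le_max_right _ _
  have hcard : (0 : ℝ) < Fintype.card T := by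
    have : 0 < Fintype.card T := Fintype.card_pos
    exact_mod_cast this
  refine ⟨hfinf, ?_, ?_, ?_⟩
  · refine ⟨(Fintype.card T * (K * (2 * K))) / c', X₂, by linarith, ?_⟩
    intro X hX
    have hX1 : 1 ≤ X := hX2pos.trans hX
    have h2 := hLOW X hX
    calc ({i | (f i : ℝ) ≤ 2 * X}.ncard : ℝ)
        ≤ ∑ τ, ({b : β τ | (n τ b : ℝ) ≤ 2 * X / F τ}.ncard : ℝ) := hAle _
      _ ≤ ∑ τ : T, K * (2 * X * (K * g X)) := Finset.sum_le_sum fun τ _ => hup' X hX1 τ
      _ = Fintype.card T * (K * (2 * X * (K * g X))) := by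
          rw [Finset.sum_const, nsmul_eq_mul, Finset.card_univ]
      _ = (Fintype.card T * (K * (2 * K))) / c' * (c' * (X * g X)) := by
          field_simp
      _ ≤ _ := mul_le_mul_of_nonneg_left h2 (by positivity)
  · by_contra hcon
    have hfinι : Finite ι := not_infinite_iff_finite.mp hcon
    obtain ⟨X, hX⟩ : ∃ X : ℝ, X₂ ≤ X ∧ (Nat.card ι : ℝ) < c' * X := by
      refine ⟨max X₂ ((Nat.card ι + 1 : ℝ) / c'), le_max_left _ _, ?_⟩
      have h1 : (Nat.card ι + 1 : ℝ) / c' ≤ max X₂ ((Nat.card ι + 1 : ℝ) / c') := le_max_right _ _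
      rw [div_le_iff₀ hc'pos] at h1
      linarith
    have h1 := hLOW X hX.1
    have h2 : ({i | (f i : ℝ) ≤ X}.ncard : ℝ) ≤ Nat.card ι := by
      have h3 : {i | (f i : ℝ) ≤ X}.ncard ≤ Nat.card ι := by
        rw [← Set.ncard_univ]
        exact Set.ncard_le_ncard (Set.subset_univ _) Set.finite_univ
      exact_mod_cast h3
    have h9 : c' * X ≤ c' * (X * g X) := by
      have h10 := hg.one X
      have h11 : 1 ≤ X := hX2pos.trans hX.1
      refine mul_le_mul_of_nonneg_left ?_ hc'pos.le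
      nlinarith
    linarith [hX.2]
  · intro η hη
    set η' : ℝ := η * c' / (2 * (Fintype.card T * K)) with hη'
    have hη'pos : 0 < η' := by positivity
    obtain ⟨X₀, hX₀⟩ := hbad η' hη'pos
    set Fm : ℝ := ∑ τ, (F τ : ℝ) with hFm
    have hFm1 : ∀ τ, (F τ : ℝ) ≤ Fm := fun τ ↦
      Finset.single_le_sum (f := fun τ ↦ (F τ : ℝ)) (fun i _ ↦ (hFpos i).le) (Finset.mem_univ τ)
    have hFm0 : 0 ≤ Fm := (hFpos τ₀).le.trans (hFm1 τ₀)
    filter_upwards [Filter.eventually_ge_atTop (max X₂ (max (|X₀| * Fm)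
      (θ * h / (η / 2 * c'))))] with X hX
    have hXX2 : X₂ ≤ X := le_trans (le_max_left _ _) hX
    have hXF : |X₀| * Fm ≤ X := le_trans (le_trans (le_max_left _ _) (le_max_right _ _)) hX
    have hXθ : θ * h / (η / 2 * c') ≤ X :=
      le_trans (le_trans (le_max_right _ _) (le_max_right _ _)) hX
    have hX1 : 1 ≤ X := hX2pos.trans hXX2
    have hX0 : 0 < X := by linarith
    have hA := hLOW X hXX2
    have hB : ({i | i ∈ Bd ∧ (f i : ℝ) ≤ X}.ncard : ℝ) ≤
        ∑ τ, ({b : β τ | b ∈ bad τ ∧ (n τ b : ℝ) ≤ X / F τ}.ncard : ℝ) := by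
      have hs := ncard_sig (fun τ => {b : β τ | b ∈ bad τ ∧ (n τ b : ℝ) ≤ X / F τ})
        (fun τ => (hfin τ (X / F τ)).subset fun b hb => hb.2)
      have hsub : Φ '' {i | i ∈ Bd ∧ (f i : ℝ) ≤ X} ⊆
          {s : Σ τ, β τ | s.2 ∈ {b : β s.1 | b ∈ bad s.1 ∧ (n s.1 b : ℝ) ≤ X / F s.1}} := by
        rintro _ ⟨i, hi, rfl⟩
        exact ⟨hBd i hi.1, (hiff X i).1 hi.2⟩
      have h1 := Set.ncard_le_ncard hsub hs.1
      rw [Set.ncard_image_of_injective _ hΦ, hs.2] at h1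
      exact_mod_cast h1
    have hB2 : ∀ τ, ({b : β τ | b ∈ bad τ ∧ (n τ b : ℝ) ≤ X / F τ}.ncard : ℝ) ≤
        θ * {b : β τ | (n τ b : ℝ) ≤ X / F τ}.ncard + η' * (X * (K * g X)) := by
      intro τ
      have hXτ : X₀ ≤ X / F τ := by
        rw [le_div_iff₀ (hFpos τ)]
        calc X₀ * F τ ≤ |X₀| * F τ := mul_le_mul_of_nonneg_right (le_abs_self _) (hFpos τ).le
          _ ≤ |X₀| * Fm := mul_le_mul_of_nonneg_left (hFm1 τ) (abs_nonneg _)
          _ ≤ X := hXF
      refine (hX₀ τ _ hXτ).trans ?_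
      have h1 : X / F τ ≤ X := div_le_self hX0.le (hFone τ)
      have h2 := hg.mono _ _ h1
      have h3 : X / F τ * g (X / F τ) ≤ X * (K * g X) :=
        mul_le_mul h1 h2 (hgpos _).le hX0.le
      have h6 := mul_le_mul_of_nonneg_left h3 hη'pos.le
      linarith
    have h4 := hleA X
    set S : ℝ := ({i | (f i : ℝ) ≤ X}.ncard : ℝ) with hS
    calc ({i | i ∈ Bd ∧ (f i : ℝ) ≤ X}.ncard : ℝ)
        ≤ ∑ τ, ({b : β τ | b ∈ bad τ ∧ (n τ b : ℝ) ≤ X / F τ}.ncard : ℝ) := hB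
      _ ≤ ∑ τ, (θ * {b : β τ | (n τ b : ℝ) ≤ X / F τ}.ncard + η' * (X * (K * g X))) :=
          Finset.sum_le_sum fun τ _ ↦ hB2 τ
      _ = θ * (∑ τ, ({b : β τ | (n τ b : ℝ) ≤ X / F τ}.ncard : ℝ)) +
          Fintype.card T * (η' * (X * (K * g X))) := by
          rw [Finset.sum_add_distrib, ← Finset.mul_sum, Finset.sum_const, nsmul_eq_mul,
            Finset.card_univ]
      _ ≤ θ * (S + h) + Fintype.card T * (η' * (X * (K * g X))) := by
          have := mul_le_mul_of_nonneg_left h4 hθ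
          linarith
      _ ≤ (θ + η) * S := by
          have h1 : Fintype.card T * (η' * (X * (K * g X))) = η / 2 * (c' * (X * g X)) := by
            rw [hη']
            field_simp
          have h2 : θ * h ≤ η / 2 * (c' * (X * g X)) := by
            have h3 : 0 < η / 2 * c' := by positivity
            rw [div_le_iff₀ h3] at hXθ
            have h4 : X ≤ X * g X := by
              have := hg.one X
              nlinarith
            calc θ * h ≤ X * (η / 2 * c') := hXθ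
              _ ≤ (X * g X) * (η / 2 * c') := mul_le_mul_of_nonneg_right h4 h3.le
              _ = _ := by ring
          have h5 : η * (c' * (X * g X)) ≤ η * S := mul_le_mul_of_nonneg_left hA hη.le
          rw [h1]
          nlinarith

end Pool.Agent.Helper50.ND
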